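import Mathlib

set_option autoImplicit false

/-! Definability calculus (with parameters) for relations between elements of a structure. -/

namespace Pool.Agent.H671U

open FirstOrder FirstOrder.Language Set

variable {L : FirstOrder.Language.{0, 0}} {M : Type} [L.Structure M]

/-- Definability with parameters of a relation between reals. -/
def Df (L : FirstOrder.Language.{0, 0}) {M : Type} [L.Structure M] {α : Type}
    (P : (α → M) → Prop) : Prop :=
  (Set.univ : Set M).Definable L {v : α → M | P v}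

namespace Df

variable {α β γ : Type}

theorem congr {P Q : (α → M) → Prop} (h : Df L P) (e : ∀ w, P w ↔ Q w) : Df L Q := by
  have : P = Q := funext fun w => propext (e w)
  rwa [← this]

theorem and {P Q : (α → M) → Prop} (hP : Df L P) (hQ : Df L Q) :
    Df L (fun w => P w ∧ Q w) := Set.Definable.inter hP hQ

theorem or {P Q : (α → M) → Prop} (hP : Df L P) (hQ : Df L Q) :
    Df L (fun w => P w ∨ Q w) := Set.Definable.union hP hQ

theorem not {P : (α → M) → Prop} (hP : Df L P) :
    Df L (fun w => ¬ P w) := Set.Definable.compl hP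

theorem imp {P Q : (α → M) → Prop} (hP : Df L P) (hQ : Df L Q) :
    Df L (fun w => P w → Q w) :=
  (hP.not.or hQ).congr fun w => by tauto

theorem all_fin {ι : Type} [Finite ι] {P : ι → (α → M) → Prop} (hP : ∀ i, Df L (P i)) :
    Df L (fun w => ∀ i, P i w) := by
  have := Set.definable_iInter_of_finite (A := (Set.univ : Set M)) (L := L) hP
  unfold Df
  convert this using 1
  ext v
  simp

theorem ex_fin {ι : Type} [Finite ι] {P : ι → (α → M) → Prop} (hP : ∀ i, Df L (P i)) :
    Df L (fun w => ∃ i, P i w) := by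
  have := Set.definable_iUnion_of_finite (A := (Set.univ : Set M)) (L := L) hP
  unfold Df
  convert this using 1
  ext v
  simp

theorem const (p : Prop) : Df L (fun _ : α → M => p) := by
  by_cases hp : p
  · have : Df L (fun _ : α → M => True) := by
      unfold Df
      convert Set.definable_univ (A := (Set.univ : Set M)) (L := L) (α := α) using 1
      ext; simp
    exact this.congr fun _ => by simp [hp]
  · have : Df L (fun _ : α → M => False) := by
      unfold Df
      convert Set.definable_empty (A := (Set.univ : Set M)) (L := L) (α := α) using 1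
      ext; simp
    exact this.congr fun _ => by simp [hp]

theorem relabel (σ : α → β) {P : (α → M) → Prop} (hP : Df L P) :
    Df L (fun w : β → M => P (fun i => w (σ i))) :=
  Set.Definable.preimage_comp σ hP

theorem ex [Finite α] [Finite γ] {P : (α ⊕ γ → M) → Prop} (hP : Df L P) :
    Df L (fun w : α → M => ∃ y : γ → M, P (Sum.elim w y)) := by
  have h := Set.Definable.image_comp (A := (Set.univ : Set M)) (L := L) hP
    (Sum.inl : α → α ⊕ γ)
  unfold Df
  convert h using 1
  ext v
  simp only [Set.mem_image, Set.mem_ofPred_eq]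
  constructor
  · rintro ⟨y, hy⟩
    refine ⟨Sum.elim v y, hy, ?_⟩
    funext p; rfl
  · rintro ⟨g, hg, rfl⟩
    refine ⟨fun c => g (Sum.inr c), ?_⟩
    convert hg using 1
    funext i
    cases i <;> rfl

theorem all [Finite α] [Finite γ] {P : (α ⊕ γ → M) → Prop} (hP : Df L P) :
    Df L (fun w : α → M => ∀ y : γ → M, P (Sum.elim w y)) :=
  (hP.not.ex.not).congr fun w => by push Not; rfl

/-- Quantifier over a tuple, functional form. -/
theorem exT [Finite α] [Finite γ] {Q : (γ → M) → (α → M) → Prop}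
    (h : Df L (fun w : α ⊕ γ → M => Q (fun c => w (Sum.inr c)) (fun i => w (Sum.inl i)))) :
    Df L (fun v : α → M => ∃ y : γ → M, Q y v) := h.ex

theorem allT [Finite α] [Finite γ] {Q : (γ → M) → (α → M) → Prop}
    (h : Df L (fun w : α ⊕ γ → M => Q (fun c => w (Sum.inr c)) (fun i => w (Sum.inl i)))) :
    Df L (fun v : α → M => ∀ y : γ → M, Q y v) := h.all

/-- Quantifier over one real, functional form. -/
theorem ex1 [Finite α] {Q : M → (α → M) → Prop}
    (h : Df L (fun w : Option α → M => Q (w none) (fun i => w (some i)))) :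
    Df L (fun v : α → M => ∃ y, Q y v) := by
  have h1 := (h.relabel (fun o : Option α => (o.elim (Sum.inr ()) Sum.inl : α ⊕ Unit))).ex
  refine h1.congr fun w => ?_
  constructor
  · rintro ⟨y, hy⟩
    exact ⟨y (), hy⟩
  · rintro ⟨a, ha⟩
    exact ⟨fun _ => a, ha⟩

theorem all1 [Finite α] {Q : M → (α → M) → Prop}
    (h : Df L (fun w : Option α → M => Q (w none) (fun i => w (some i)))) :
    Df L (fun v : α → M => ∀ y, Q y v) :=
  ((ex1 (Q := fun y v => ¬ Q y v) h.not).not).congr fun w => by push Not; rfl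

end Df


/-- Every formula has finite VC dimension. -/
def IsNip (L : FirstOrder.Language.{0, 0}) (M : Type) [L.Structure M] : Prop :=
  ∀ (m k : ℕ) (φ : L.Formula (Fin m ⊕ Fin k)), ∃ N : ℕ, ∀ a : Fin N → Fin m → M,
        ¬ ∀ S : Set (Fin N), ∃ b : Fin k → M,
            ∀ i : Fin N, (φ.Realize (Sum.elim (a i) b) ↔ i ∈ S)

theorem nip_df {α β : Type} (hnip : IsNip L M) [Finite α] [Finite β] {P : (α ⊕ β → M) → Prop}
    (hP : Df L P) :
    ∃ N : ℕ, ∀ a : Fin N → α → M, ¬ ∀ S : Set (Fin N), ∃ b : β → M,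
      ∀ i : Fin N, (P (Sum.elim (a i) b) ↔ i ∈ S) := by
  classical
  obtain ⟨A0, -, hA0⟩ := Set.definable_iff_finitely_definable.1 hP
  obtain ⟨φ, hφ⟩ := Set.definable_iff_exists_formula_sum.1 hA0
  obtain ⟨m, ⟨eα⟩⟩ := Finite.exists_equiv_fin α
  obtain ⟨q, ⟨eβ⟩⟩ := Finite.exists_equiv_fin β
  obtain ⟨r, ⟨er⟩⟩ := Finite.exists_equiv_fin (A0 : Set M)
  let σ : (A0 : Set M) ⊕ (α ⊕ β) → Fin m ⊕ Fin (q + r) := fun s =>
    Sum.elim (fun c => Sum.inr (Fin.natAdd q (er c)))
      (Sum.elim (fun i => Sum.inl (eα i)) (fun j => Sum.inr (Fin.castAdd r (eβ j)))) s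
  obtain ⟨N, hN⟩ := hnip m (q + r) (φ.relabel σ)
  refine ⟨N, fun a hall => hN (fun i j => a i (eα.symm j)) fun S => ?_⟩
  obtain ⟨b, hb⟩ := hall S
  refine ⟨Fin.append (fun j => b (eβ.symm j)) (fun c => ((er.symm c : (A0 : Set M)) : M)),
    fun i => ?_⟩
  rw [← hb i, Formula.realize_relabel]
  have h1 : P (Sum.elim (a i) b) ↔ φ.Realize (Sum.elim (↑) (Sum.elim (a i) b)) := by
    have : (Sum.elim (a i) b) ∈ {v | P v} ↔
        (Sum.elim (a i) b) ∈ {v : α ⊕ β → M | φ.Realize (Sum.elim (↑) v)} := by rw [hφ]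
    exact this
  rw [h1]
  have e : (Sum.elim (fun j => a i (eα.symm j)) (Fin.append (fun j => b (eβ.symm j))
      (fun c => ((er.symm c : (A0 : Set M)) : M))) ∘ σ) =
      (Sum.elim (fun c : (A0 : Set M) => (c : M)) (Sum.elim (a i) b)) := by
    funext s
    rcases s with c | i' | j
    · simp [σ]
    · simp [σ]
    · simp [σ]
  rw [e]

end Pool.Agent.H671U
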