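import Mathlib
import Pool.Agent.H671U.Df
import Pool.Agent.H671S.Inv

set_option autoImplicit false

/-! Total preorders in NIP fields of positive characteristic are generically constant. -/

namespace Pool.Agent.H671U

open FirstOrder FirstOrder.Language Set Filter Pool.Agent.H671S

/-- The affine comparison family of a relation. -/
def relFam {K : Type*} [Field K] (R : K → K → Prop) : Set (Set K) :=
  {s | ∃ a y y' : K, a ≠ 0 ∧ s = {x | R (a * x + y) (a * x + y')}}

theorem relFam_inv {K : Type*} [Field K] (R : K → K → Prop) :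
    ∀ s ∈ relFam R, ∀ c d : K, c ≠ 0 → {x | c * x + d ∈ s} ∈ relFam R := by
  rintro s ⟨a, y, y', ha, rfl⟩ c d hc
  refine ⟨a * c, a * d + y, a * d + y', mul_ne_zero ha hc, ?_⟩
  ext x
  simp only [Set.mem_ofPred_eq]
  have e1 : a * (c * x + d) + y = a * c * x + (a * d + y) := by ring
  have e2 : a * (c * x + d) + y' = a * c * x + (a * d + y') := by ring
  rw [e1, e2]

/-- An ultrafilter along which all affine comparisons are translation invariant. -/
theorem exists_ultrafilter {K : Type*} [Field K] [Infinite K] (R : K → K → Prop)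
    {k : ℕ} (hF : NoShatter (relFam R) k) :
    ∃ p : Ultrafilter K, ∀ a y y' z : K, a ≠ 0 →
      ∀ᶠ x in (p : Filter K), (R (a * x + y) (a * x + y') ↔
        R (a * x + (y + z)) (a * x + (y' + z))) := by
  classical
  obtain ⟨p, hp⟩ := Ultrafilter.exists_ultrafilter_of_finite_inter_nonempty
    {s : Set K | ∃ a y y' z : K, a ≠ 0 ∧
      s = {x | R (a * x + y) (a * x + y') ↔ R (a * x + (y + z)) (a * x + (y' + z))}} (by
    intro T hT
    have hT' : ∀ s : Set K, s ∈ T → ∃ a y y' z : K, a ≠ 0 ∧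
        s = {x | R (a * x + y) (a * x + y') ↔ R (a * x + (y + z)) (a * x + (y' + z))} :=
      fun s hs => hT hs
    choose! a y y' z ha hs using hT'
    obtain ⟨x, hx⟩ := exists_invariant_point hF (relFam_inv R) (T.image fun s => z s / a s)
      (T.image fun s => {x | R (a s * x + y s) (a s * x + y' s)}) (by
        intro s hs'
        obtain ⟨t, ht, rfl⟩ := Finset.mem_image.1 hs'
        exact ⟨a t, _, _, ha t ht, rfl⟩)
    refine ⟨x, ?_⟩
    rw [Set.mem_sInter]
    intro s hsT
    have h1 := hx (z s / a s) (Finset.mem_image_of_mem _ hsT) _ (Finset.mem_image_of_mem _ hsT)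
    rw [hs s hsT]
    have h0 := ha s hsT
    simp only [Set.mem_ofPred_eq] at h1 ⊢
    rw [h1]
    have e1 : a s * (x + z s / a s) + y s = a s * x + (y s + z s) := by
      field_simp
      ring
    have e2 : a s * (x + z s / a s) + y' s = a s * x + (y' s + z s) := by
      field_simp
      ring
    rw [e1, e2])
  exact ⟨p, fun a y y' z ha => hp ⟨a, y, y', z, ha, rfl⟩⟩

theorem generic_constant {K : Type*} [Field K] [Infinite K] (q : ℕ) [Fact q.Prime] [CharP K q]
    (R : K → K → Prop) (htot : ∀ x y, R x y ∨ R y x)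
    (htrans : ∀ x y z, R x y → R y z → R x z)
    {k : ℕ} (hF : NoShatter (relFam R) k) (S F : Finset K) (hS : (0 : K) ∉ S) :
    ∃ x, ∀ a ∈ S, ∀ y ∈ F, R (a * x + y) (a * x) ∧ R (a * x) (a * x + y) := by
  classical
  obtain ⟨p, hp⟩ := exists_ultrafilter R hF
  have hq : ∀ y : K, ((q - 1 : ℕ) : K) * y + y = 0 := by
    intro y
    have h1 : 1 ≤ q := (Fact.out : q.Prime).one_le
    have h2 : ((q - 1 : ℕ) : K) * y + y = ((q - 1 + 1 : ℕ) : K) * y := by push_cast; ring
    rw [h2, Nat.sub_add_cancel h1, CharP.cast_eq_zero, zero_mul]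
  -- chains
  have hchain1 : ∀ a y : K, a ≠ 0 → (∀ᶠ x in (p : Filter K), R (a * x + 0) (a * x + y)) →
      ∀ n : ℕ, ∀ᶠ x in (p : Filter K), R (a * x + y) (a * x + ((n : K) * y + y)) := by
    intro a y ha h n
    induction n with
    | zero =>
      refine Eventually.of_forall fun x => ?_
      have e : a * x + (((0 : ℕ) : K) * y + y) = a * x + y := by simp
      rw [e]
      rcases htot (a * x + y) (a * x + y) with h | h <;> exact h
    | succ n ih =>
      have h2 := hp a 0 y ((n : K) * y + y) ha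
      filter_upwards [ih, h, h2] with x h3 h4 h5
      have h6 := h5.1 h4
      have e1 : a * x + (0 + ((n : K) * y + y)) = a * x + ((n : K) * y + y) := by ring
      have e2 : a * x + (y + ((n : K) * y + y)) = a * x + (((n + 1 : ℕ) : K) * y + y) := by
        push_cast; ring
      rw [e1, e2] at h6
      exact htrans _ _ _ h3 h6
  have hchain2 : ∀ a y : K, a ≠ 0 → (∀ᶠ x in (p : Filter K), R (a * x + y) (a * x + 0)) →
      ∀ n : ℕ, ∀ᶠ x in (p : Filter K), R (a * x + ((n : K) * y + y)) (a * x + y) := by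
    intro a y ha h n
    induction n with
    | zero =>
      refine Eventually.of_forall fun x => ?_
      have e : a * x + (((0 : ℕ) : K) * y + y) = a * x + y := by simp
      rw [e]
      rcases htot (a * x + y) (a * x + y) with h | h <;> exact h
    | succ n ih =>
      have h2 := hp a y 0 ((n : K) * y + y) ha
      filter_upwards [ih, h, h2] with x h3 h4 h5
      have h6 := h5.1 h4
      have e1 : a * x + (0 + ((n : K) * y + y)) = a * x + ((n : K) * y + y) := by ring
      have e2 : a * x + (y + ((n : K) * y + y)) = a * x + (((n + 1 : ℕ) : K) * y + y) := by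
        push_cast; ring
      rw [e1, e2] at h6
      exact htrans _ _ _ h6 h3
  have hkey : ∀ a ∈ S, ∀ y ∈ F, ∀ᶠ x in (p : Filter K),
      R (a * x + y) (a * x) ∧ R (a * x) (a * x + y) := by
    intro a ha y _
    have ha0 : a ≠ 0 := fun h => hS (h ▸ ha)
    have hor : (∀ᶠ x in (p : Filter K), R (a * x + 0) (a * x + y)) ∨
        ∀ᶠ x in (p : Filter K), R (a * x + y) (a * x + 0) := by
      rw [← Ultrafilter.eventually_or]
      exact Eventually.of_forall fun x => htot _ _
    rcases hor with h | h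
    · have h1 := hchain1 a y ha0 h (q - 1)
      rw [hq y] at h1
      filter_upwards [h, h1] with x h2 h3
      rw [add_zero] at h2 h3
      exact ⟨h3, h2⟩
    · have h1 := hchain2 a y ha0 h (q - 1)
      rw [hq y] at h1
      filter_upwards [h, h1] with x h2 h3
      rw [add_zero] at h2 h3
      exact ⟨h2, h3⟩
  have hall : ∀ᶠ x in (p : Filter K), ∀ a ∈ (S : Set K), ∀ y ∈ (F : Set K),
      R (a * x + y) (a * x) ∧ R (a * x) (a * x + y) := by
    rw [Set.Finite.eventually_all S.finite_toSet]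
    intro a ha
    rw [Set.Finite.eventually_all F.finite_toSet]
    intro y hy
    exact hkey a ha y hy
  obtain ⟨x, hx⟩ := hall.exists
  exact ⟨x, hx⟩

theorem noShatter_of_nip {L : FirstOrder.Language.{0, 0}} {K : Type} [Field K] [L.Structure K]
    (hadd : (∅ : Set K).Definable L {v : Fin 3 → K | v 0 + v 1 = v 2})
    (hmul : (∅ : Set K).Definable L {v : Fin 3 → K | v 0 * v 1 = v 2})
    (hnip : IsNip L K) (R : K → K → Prop)
    (hR : (Set.univ : Set K).Definable L {v : Fin 2 → K | R (v 0) (v 1)}) :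
    ∃ k, NoShatter (relFam R) k := by
  classical
  have hA : Df L (fun v : Fin 3 → K => v 0 + v 1 = v 2) :=
    Set.Definable.mono hadd (Set.empty_subset _)
  have hM : Df L (fun v : Fin 3 → K => v 0 * v 1 = v 2) :=
    Set.Definable.mono hmul (Set.empty_subset _)
  have hR' : Df L (fun v : Fin 2 → K => R (v 0) (v 1)) := hR
  -- variables: x = inl 0, a = inr 0, y = inr 1, y' = inr 2
  have h1 : Df L (fun v : (Fin 1 ⊕ Fin 3) ⊕ Fin 3 → K =>
      (v (Sum.inl (Sum.inr 0)) * v (Sum.inl (Sum.inl 0)) = v (Sum.inr 0)) ∧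
      (v (Sum.inr 0) + v (Sum.inl (Sum.inr 1)) = v (Sum.inr 1)) ∧
      (v (Sum.inr 0) + v (Sum.inl (Sum.inr 2)) = v (Sum.inr 2)) ∧
      R (v (Sum.inr 1)) (v (Sum.inr 2))) :=
    (hM.relabel ![Sum.inl (Sum.inr 0), Sum.inl (Sum.inl 0), Sum.inr 0]).and
      ((hA.relabel ![Sum.inr 0, Sum.inl (Sum.inr 1), Sum.inr 1]).and
      ((hA.relabel ![Sum.inr 0, Sum.inl (Sum.inr 2), Sum.inr 2]).and
      (hR'.relabel ![Sum.inr 1, Sum.inr 2])))
  have h2 : Df L (fun v : Fin 1 ⊕ Fin 3 → K =>
      R (v (Sum.inr 0) * v (Sum.inl 0) + v (Sum.inr 1))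
        (v (Sum.inr 0) * v (Sum.inl 0) + v (Sum.inr 2))) := by
    refine h1.ex.congr fun v => ?_
    constructor
    · rintro ⟨y, e1, e2, e3, h⟩
      simp only [Sum.elim_inl, Sum.elim_inr] at e1 e2 e3 h
      rw [e1, e2, e3]
      exact h
    · intro h
      exact ⟨![v (Sum.inr 0) * v (Sum.inl 0), v (Sum.inr 0) * v (Sum.inl 0) + v (Sum.inr 1),
        v (Sum.inr 0) * v (Sum.inl 0) + v (Sum.inr 2)], rfl, rfl, rfl, h⟩
  obtain ⟨k, hk⟩ := nip_df hnip h2
  refine ⟨k, ?_⟩
  intro A hcard
  by_contra hcon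
  push Not at hcon
  let e := A.equivFinOfCardEq hcard
  apply hk (fun i _ => (e.symm i : K))
  intro S
  obtain ⟨s, ⟨a, y, y', -, rfl⟩, hs⟩ := hcon (A.filter fun x => ∃ h : x ∈ A, e ⟨x, h⟩ ∈ S)
    (Finset.filter_subset _ _)
  refine ⟨![a, y, y'], fun i => ?_⟩
  have h1 := hs (e.symm i) (e.symm i).2
  simp only [Finset.mem_filter, Finset.coe_mem, true_and, Subtype.coe_eta,
    Equiv.apply_symm_apply, exists_true_left, Set.mem_ofPred_eq] at h1
  rw [h1]
  rfl

end Pool.Agent.H671U
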